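import Pool.Agent.N682.KK.Z00
import Pool.Agent.N682.KK.Z01
import Pool.Agent.N682.KK.Z02
import Pool.Agent.N682.KK.Z03
import Pool.Agent.N682.KK.Z04
import Pool.Agent.N682.KK.Z05
import Pool.Agent.N682.KK.Z06
import Pool.Agent.N682.KK.Z07
import Pool.Agent.N682.KK.Z08
import Pool.Agent.N682.KK.Z09
import Pool.Agent.N682.KK.Z10
import Pool.Agent.N682.KK.Z11
import Pool.Agent.N682.KK.Z12
import Pool.Agent.N682.KK.Z13
import Pool.Agent.N682.KK.Z14
import Pool.Agent.N682.KK.Z15
import Pool.Agent.N682.KK.Z16
import Pool.Agent.N682.KK.Z17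
import Pool.Agent.N682.KK.Z18
import Pool.Agent.N682.KK.Z19
import Pool.Agent.N682.KK.Z20
import Pool.Agent.N682.KK.Z21
import Pool.Agent.N682.KK.Z22
import Pool.Agent.N682.KK.Z23
import Pool.Agent.N682.KK.Z24
import Pool.Agent.N682.KK.Z25

/-!
# A counterexample: `n = 7588`

For no integer `k` with `0 < k < 7588` is `k (k + 1) ^ φ(7588 - k) + 1` a prime number. The kernel
checks for each `k` either a proper divisor of this number or that it fails the Fermat test with
base `2` (1384 of the numbers, with up to 65462 binary digits).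
-/

set_option autoImplicit false

namespace Pool.Agent.Results.MP_18f1ec_nt.Counterexample7588

open Pool.Agent.N682.KK

/-- **Theorem.** There is an integer `n > 1` (namely `n = 7588`) such that
`k (k + 1) ^ φ(n - k) + 1` is not a prime number for any integer `k` with `0 < k < n`. -/
theorem result : ∃ n : ℕ, 1 < n ∧ ∀ k : ℕ, 0 < k → k < n →
    ¬ (k * (k + 1) ^ (Nat.totient (n - k)) + 1).Prime := by
  refine ⟨7588, by norm_num, fun k hk0 hk => ?_⟩
  change ¬ (num 7588 k).Prime
  by_cases h242 : k < 242
  · exact Z00.rng k (by omega) h242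
  by_cases h408 : k < 408
  · exact Z01.rng k (by omega) h408
  by_cases h595 : k < 595
  · exact Z02.rng k (by omega) h595
  by_cases h740 : k < 740
  · exact Z03.rng k (by omega) h740
  by_cases h876 : k < 876
  · exact Z04.rng k (by omega) h876
  by_cases h1096 : k < 1096
  · exact Z05.rng k (by omega) h1096
  by_cases h1234 : k < 1234
  · exact Z06.rng k (by omega) h1234
  by_cases h1404 : k < 1404
  · exact Z07.rng k (by omega) h1404
  by_cases h1482 : k < 1482
  · exact Z08.rng k (by omega) h1482
  by_cases h1600 : k < 1600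
  · exact Z09.rng k (by omega) h1600
  by_cases h1732 : k < 1732
  · exact Z10.rng k (by omega) h1732
  by_cases h1920 : k < 1920
  · exact Z11.rng k (by omega) h1920
  by_cases h2088 : k < 2088
  · exact Z12.rng k (by omega) h2088
  by_cases h2263 : k < 2263
  · exact Z13.rng k (by omega) h2263
  by_cases h2371 : k < 2371
  · exact Z14.rng k (by omega) h2371
  by_cases h2554 : k < 2554
  · exact Z15.rng k (by omega) h2554
  by_cases h2783 : k < 2783
  · exact Z16.rng k (by omega) h2783
  by_cases h2968 : k < 2968
  · exact Z17.rng k (by omega) h2968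
  by_cases h3224 : k < 3224
  · exact Z18.rng k (by omega) h3224
  by_cases h3430 : k < 3430
  · exact Z19.rng k (by omega) h3430
  by_cases h3750 : k < 3750
  · exact Z20.rng k (by omega) h3750
  by_cases h4120 : k < 4120
  · exact Z21.rng k (by omega) h4120
  by_cases h4576 : k < 4576
  · exact Z22.rng k (by omega) h4576
  by_cases h5052 : k < 5052
  · exact Z23.rng k (by omega) h5052
  by_cases h6256 : k < 6256
  · exact Z24.rng k (by omega) h6256
  exact Z25.rng k (by omega) hk

end Pool.Agent.Results.MP_18f1ec_nt.Counterexample7588
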